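import Pool.Agent.Helper70.HS.Stmts
import Pool.Agent.Helper69.RK.StE

set_option autoImplicit false

/-! Sticky Kakeya sets, Hausdorff form: module ENT (the system of scale `n`). -/

namespace Pool.Agent.Helper4.HS

open Finset
open Pool.Agent.Helper69.RK (CH cel Yt ht Sys mass pr ST_E1 ST_E3)
open Pool.Agent.Helper70.HS

noncomputable section

open Classical in
theorem pr_ge {Ω α : Type} [Fintype Ω] (μ : Ω → ℝ) (f : Ω → α) (h : ∀ ω, 0 ≤ μ ω) (ω : Ω) :
    μ ω ≤ pr μ f ω := by
  unfold pr
  refine le_trans (le_of_eq (if_pos rfl).symm) (single_le_sum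
    (f := fun ω' : Ω => if f ω' = f ω then μ ω' else 0) (fun ω' _ => ?_) (mem_univ ω))
  split_ifs
  · exact h _
  · exact le_rfl

theorem card_img {α β : Type} [DecidableEq β] (s : Finset α) (f : α → β) (T : Finset β)
    (h : ∀ x ∈ s, f x ∈ T) : (s.image f).card ≤ T.card := card_le_card (image_subset_iff.2 h)

open Classical in
theorem log_card (hE3 : ST_E3) {Ω α : Type} [Fintype Ω] (μ : Ω → ℝ) (h0 : ∀ ω, 0 ≤ μ ω)
    (f : Ω → α) (T : Finset α) (hT : ∀ ω, f ω ∈ T) (N : ℝ) (hN : (T.card : ℝ) ≤ N) :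
    CH μ f (fun _ => ()) ≤ ∑ ω, μ ω * Real.logb 2 N := by
  refine hE3.1 Ω α Unit μ f (fun _ => ()) (fun _ => N) h0 fun ω _ => ?_
  refine le_trans (Nat.cast_le.2 ?_) hN
  exact card_img _ _ _ fun ω' _ => hT ω'

section

variable {X : Type} (S : Finset X) (B : X → Finset ℕ) (w : X → ℝ)

/-- weights on the space of pairs -/
def mu (ω : Σ x : S, B x.1) : ℝ := w ω.1.1 / (B ω.1.1).card

variable {S B w}

theorem sum_fib (hB : ∀ x ∈ S, 0 < (B x).card) (F : S → ℝ) :
    ∑ ω : (Σ x : S, B x.1), F ω.1 / (B ω.1.1).card = ∑ x : S, F x := by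
  rw [Fintype.sum_sigma]
  refine sum_congr rfl fun x _ => ?_
  have h0 : ∑ _y : B x.1, F x / ((B x.1).card : ℝ) = F x := by
    rw [sum_const, card_univ, Fintype.card_coe, nsmul_eq_mul]
    have h : ((B x.1).card : ℝ) ≠ 0 := by
      have := hB x.1 x.2
      positivity
    field_simp
  exact h0

theorem pr_fib [DecidableEq X] (hB : ∀ x ∈ S, 0 < (B x).card) {α : Type} (φ : S → α)
    (ω : Σ x : S, B x.1) (T : Finset X) (hT : ∀ x : S, φ x = φ ω.1 ↔ x.1 ∈ T) (hTS : T ⊆ S) :
    pr (mu S B w) (fun ω' : (Σ x : S, B x.1) => φ ω'.1) ω = ∑ x ∈ T, w x := by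
  have h1 : ∑ x ∈ T, w x = ∑ x : S, if x.1 ∈ T then w x.1 else 0 := by
    rw [sum_coe_sort S (fun x => if x ∈ T then w x else 0), ← sum_filter]
    refine sum_congr ?_ fun _ _ => rfl
    ext x
    rw [mem_filter]
    exact ⟨fun h => ⟨hTS h, h⟩, fun h => h.2⟩
  rw [h1, ← sum_fib hB]
  unfold pr mu
  refine sum_congr rfl fun ω' _ => ?_
  by_cases h : ω'.1.1 ∈ T
  · rw [if_pos ((hT _).2 h), if_pos h]
  · rw [if_neg fun h' => h ((hT _).1 h'), if_neg h, zero_div]

theorem mu_sum (hB : ∀ x ∈ S, 0 < (B x).card) :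
    ∑ ω : (Σ x : S, B x.1), mu S B w ω = ∑ x ∈ S, w x := by
  unfold mu
  rw [sum_fib hB (fun x => w x.1)]
  exact sum_coe_sort S w

end

theorem st_ENT (hE1 : ST_E1) (hE3 : ST_E3) (hF : ST_FROST) : ST_ENT := by
  classical
  intro m n s σ M c b L A hσ hc hc1 hM hs hb hL hBox hCont hA
  obtain ⟨S, w, hS, hw, hw1, hSw⟩ := hF m σ c (Prod.snd '' L) n hσ hc hc1 hCont (by
    rintro x ⟨l, hl, rfl⟩ i
    exact (hL l hl i).2)
  -- the lines
  have hline : ∀ x, ∃ a : Fin m → ℝ, x ∈ S → (a, x) ∈ L := by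
    intro x
    by_cases hx : x ∈ S
    · obtain ⟨l, hl, hlx⟩ := hS x hx
      refine ⟨l.1, fun _ => ?_⟩
      rw [← hlx]
      exact hl
    · exact ⟨x, fun h => absurd h hx⟩
  choose a ha using hline
  set B : (Fin m → ℝ) → Finset ℕ := fun x => A (a x, x) with hBdef
  have hB : ∀ x ∈ S, 0 < (B x).card := by
    intro x hx
    have h1 := (hA (a x, x) (ha x hx)).2
    have h2 : (0 : ℝ) < (B x).card := lt_of_lt_of_le hb h1
    exact_mod_cast h2
  have hmu0 : ∀ ω : (Σ x : S, B x.1), 0 ≤ mu S B w ω := by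
    intro ω
    unfold mu
    exact div_nonneg (hw _) (Nat.cast_nonneg _)
  have hmass : ∑ ω : (Σ x : S, B x.1), mu S B w ω = 1 := by
    rw [mu_sum hB, hw1]
  -- entropy of the direction
  have hlow : ∀ k ≤ n, σ * k - Real.logb 2 (1 / c) ≤
      CH (mu S B w) (fun ω => cel k ω.1.1) (fun _ => ()) := by
    intro k hk
    have key : ∀ ω : (Σ x : S, B x.1), mu S B w ω * (σ * k - Real.logb 2 (1 / c)) ≤
        mu S B w ω * (Real.logb 2 (pr (mu S B w) (fun _ => ()) ω) -
          Real.logb 2 (pr (mu S B w) (fun ω' => (cel k ω'.1.1, ())) ω)) := by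
      intro ω
      by_cases h0 : mu S B w ω = 0
      · rw [h0, zero_mul, zero_mul]
      · apply mul_le_mul_of_nonneg_left _ (hmu0 ω)
        have h1 : pr (mu S B w) (fun _ => ()) ω = 1 := by
          unfold pr
          simp only [if_true]
          exact hmass
        have h3 : pr (mu S B w) (fun ω' : (Σ x : S, B x.1) => (cel k ω'.1.1, ())) ω
            ≤ (2 : ℝ) ^ (-(σ * k)) / c := by
          refine (le_of_eq (pr_fib hB (fun x : S => (cel k x.1, ())) ω _ ?_ ?_)).trans
            (hSw k hk (cel k ω.1.1))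
          · intro x
            rw [mem_filter]
            exact ⟨fun h => ⟨x.2, (Prod.ext_iff.1 h).1⟩, fun h => by rw [h.2]⟩
          · exact filter_subset _ _
        have hpos : 0 < pr (mu S B w) (fun ω' : (Σ x : S, B x.1) => (cel k ω'.1.1, ())) ω := by
          exact lt_of_lt_of_le ((hmu0 ω).lt_of_ne (Ne.symm h0)) (pr_ge _ _ hmu0 ω)
        rw [h1, Real.logb_one]
        have h8 := Real.logb_le_logb_of_le (b := 2) (by norm_num) hpos h3
        rw [Real.logb_div (by positivity) hc.ne', Real.logb_rpow (by norm_num) (by norm_num)]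
          at h8
        rw [Real.logb_div one_ne_zero hc.ne', Real.logb_one]
        linarith
    have h9 := sum_le_sum fun ω (_ : ω ∈ (univ : Finset (Σ x : S, B x.1))) => key ω
    rw [← sum_mul, hmass, one_mul] at h9
    exact h9
  refine ⟨(Σ x : S, B x.1), inferInstance, mu S B w, fun ω => a ω.1.1, fun ω => ω.1.1,
    fun ω => (ω.2 : ℕ), hmu0, hmass, fun ω => ⟨ha _ ω.1.2, ω.2.2⟩, hlow, ?_, ?_⟩
  · -- entropy of the position
    intro k hk
    obtain ⟨F, hF1, hF2⟩ := hBox k
    have hlowk := hlow k hk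
    have hch := (hE1 (Σ x : S, B x.1) (Fin m → ℤ) (Fin m → ℤ) Unit (mu S B w)
      (fun ω => cel k ω.1.1) (fun ω => cel k (a ω.1.1)) (fun _ => ()) hmu0).2.1
    have hup := log_card hE3 (mu S B w) hmu0 (fun ω => (cel k ω.1.1, cel k (a ω.1.1)))
      (F.image Prod.swap) (fun ω => mem_image.2 ⟨_, hF1 _ (ha _ ω.1.2), rfl⟩)
      (M * (2 : ℝ) ^ (s * k)) (le_trans (Nat.cast_le.2 card_image_le) hF2)
    rw [← sum_mul, hmass, one_mul, Real.logb_mul (by positivity) (by positivity),
      Real.logb_rpow (by norm_num) (by norm_num)] at hup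
    linarith
  · -- entropy of the height
    have h1 := (hE1 (Σ x : S, B x.1) ℕ S ((Fin m → ℤ) × (Fin m → ℤ) × Unit) (mu S B w)
      (fun ω => (ω.2 : ℕ)) (fun ω => ω.1)
      (fun ω => (cel n (a ω.1.1), cel n ω.1.1, ())) hmu0).2.2
    refine le_trans ?_ h1
    have key : ∀ ω : (Σ x : S, B x.1), mu S B w ω * Real.logb 2 b ≤
        mu S B w ω * (Real.logb 2 (pr (mu S B w)
          (fun ω => (ω.1, (cel n (a ω.1.1), cel n ω.1.1, ()))) ω) -
          Real.logb 2 (pr (mu S B w) (fun ω' : (Σ x : S, B x.1) => ((ω'.2 : ℕ),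
            (ω'.1, (cel n (a ω'.1.1), cel n ω'.1.1, ())))) ω)) := by
      intro ω
      by_cases h0 : mu S B w ω = 0
      · rw [h0, zero_mul, zero_mul]
      · apply mul_le_mul_of_nonneg_left _ (hmu0 ω)
        have h2 : pr (mu S B w) (fun ω' : (Σ x : S, B x.1) =>
            (ω'.1, (cel n (a ω'.1.1), cel n ω'.1.1, ()))) ω = w ω.1.1 := by
          refine (pr_fib hB (fun x : S => (x, (cel n (a x.1), cel n x.1, ()))) ω {ω.1.1}
            ?_ ?_).trans (sum_singleton _ _)
          · intro x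
            rw [mem_singleton]
            constructor
            · intro h
              exact congrArg Subtype.val (Prod.ext_iff.1 h).1
            · intro h
              rw [Subtype.ext h]
          · rw [singleton_subset_iff]
            exact ω.1.2
        have h4 : pr (mu S B w) (fun ω' : (Σ x : S, B x.1) => ((ω'.2 : ℕ),
            (ω'.1, (cel n (a ω'.1.1), cel n ω'.1.1, ())))) ω = mu S B w ω := by
          unfold pr
          rw [sum_eq_single ω]
          · rw [if_pos rfl]
          · intro ω' _ hne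
            rw [if_neg]
            intro h
            apply hne
            have e1 := (Prod.ext_iff.1 h).1
            have e2 := (Prod.ext_iff.1 (Prod.ext_iff.1 h).2).1
            obtain ⟨x, g⟩ := ω
            obtain ⟨x', g'⟩ := ω'
            dsimp only at e1 e2
            subst e2
            rw [Subtype.ext e1]
          · intro h
            exact absurd (mem_univ _) h
        have h6 : 0 < w ω.1.1 := by
          rcases (hw ω.1.1).lt_or_eq with h | h
          · exact h
          · exfalso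
            apply h0
            unfold mu
            rw [← h, zero_div]
        have hBω := hB ω.1.1 ω.1.2
        have hBr : (0 : ℝ) < (B ω.1.1).card := by exact_mod_cast hBω
        rw [h2, h4]
        unfold mu
        rw [Real.logb_div h6.ne' hBr.ne']
        have h7 := Real.logb_le_logb_of_le (b := 2) (by norm_num) hb
          (hA _ (ha _ ω.1.2)).2
        have h8 : B ω.1.1 = A (a ω.1.1, ω.1.1) := rfl
        rw [h8]
        linarith
    have h9 := sum_le_sum fun ω (_ : ω ∈ (univ : Finset (Σ x : S, B x.1))) => key ω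
    rw [← sum_mul, hmass, one_mul] at h9
    exact h9

end

end Pool.Agent.Helper4.HS
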